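import Pool.Agent.Helper8.KT.Sheet2

open scoped ZeroAtInfty
open Set Filter Topology

namespace Pool.Agent.Helper4.KT.DC

universe u

variable {Z : Type u} [NormedAddCommGroup Z] [NormedSpace ℝ Z]

omit [NormedSpace ℝ Z] in
theorem nle (x : C₀(ℕ, Z)) (j : ℕ) : ‖x j‖ ≤ ‖x‖ := by
  rw [← ZeroAtInftyContinuousMap.norm_toBCF_eq_norm]
  exact x.toBCF.norm_coe_le_norm j

omit [NormedSpace ℝ Z] in
theorem len (x : C₀(ℕ, Z)) {r : ℝ} (hr : 0 ≤ r) (h : ∀ j, ‖x j‖ ≤ r) : ‖x‖ ≤ r := by
  rw [← ZeroAtInftyContinuousMap.norm_toBCF_eq_norm]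
  exact (BoundedContinuousFunction.norm_le hr).2 h

/-- a single coordinate -/
noncomputable def sg (i : ℕ) (z : Z) : C₀(ℕ, Z) where
  toFun j := if j = i then z else 0
  continuous_toFun := continuous_of_discreteTopology
  zero_at_infty' := by
    rw [cocompact_eq_cofinite]
    refine tendsto_const_nhds.congr' ?_
    have h : ∀ᶠ j in cofinite, j ≠ i := (Set.finite_singleton i).compl_mem_cofinite
    filter_upwards [h] with j hj
    rw [if_neg hj]

omit [NormedSpace ℝ Z] in
theorem sg_apply (i j : ℕ) (z : Z) : sg i z j = if j = i then z else 0 := rfl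

/-- the embedding of a coordinate -/
noncomputable def em (i : ℕ) : Z →L[ℝ] C₀(ℕ, Z) :=
  LinearMap.mkContinuous
    { toFun := sg i
      map_add' := by
        intro a b
        ext j
        rw [ZeroAtInftyContinuousMap.coe_add, Pi.add_apply, sg_apply, sg_apply, sg_apply]
        split_ifs <;> simp
      map_smul' := by
        intro c a
        ext j
        rw [ZeroAtInftyContinuousMap.coe_smul, Pi.smul_apply, sg_apply, sg_apply]
        split_ifs <;> simp } 1 (by
      intro z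
      rw [one_mul]
      refine len _ (norm_nonneg z) fun j => ?_
      change ‖sg i z j‖ ≤ ‖z‖
      rw [sg_apply]
      split_ifs
      · exact le_rfl
      · rw [norm_zero]; exact norm_nonneg z)

theorem em_apply (i j : ℕ) (z : Z) : em i z j = if j = i then z else 0 := rfl

/-- the evaluation -/
noncomputable def ev (i : ℕ) : C₀(ℕ, Z) →L[ℝ] Z :=
  LinearMap.mkContinuous
    { toFun := fun x => x i
      map_add' := fun _ _ => rfl
      map_smul' := fun _ _ => rfl } 1 (by
      intro x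
      rw [one_mul]
      exact nle x i)

theorem ev_apply (i : ℕ) (x : C₀(ℕ, Z)) : ev i x = x i := rfl

/-- truncation -/
noncomputable def P (n : ℕ) (x : C₀(ℕ, Z)) : C₀(ℕ, Z) := ∑ i ∈ Finset.range n, em i (x i)

theorem P_apply (n : ℕ) (x : C₀(ℕ, Z)) (j : ℕ) : P n x j = if j < n then x j else 0 := by
  have h1 : P n x j = ∑ i ∈ Finset.range n, (em i (x i)) j := by
    unfold P
    rw [← ev_apply j, map_sum]
    rfl
  rw [h1]
  simp only [em_apply]
  rw [Finset.sum_ite_eq]
  simp only [Finset.mem_range]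

/-- the functional of the truncation -/
noncomputable def Tn (T : StrongDual ℝ C₀(ℕ, Z)) (n : ℕ) : StrongDual ℝ C₀(ℕ, Z) :=
  ∑ i : Fin n, (T.comp (em (i : ℕ))).comp (ev (i : ℕ))

theorem Tn_apply (T : StrongDual ℝ C₀(ℕ, Z)) (n : ℕ) (x : C₀(ℕ, Z)) : Tn T n x = T (P n x) := by
  unfold Tn P
  rw [map_sum, sum_apply, Finset.sum_range]
  rfl

theorem trunc (x : C₀(ℕ, Z)) {δ : ℝ} (hδ : 0 < δ) : ∃ M, ∀ m, M ≤ m → ‖x - P m x‖ ≤ δ := by
  have h1 := x.zero_at_infty'
  rw [cocompact_eq_cofinite, Nat.cofinite_eq_atTop, Metric.tendsto_atTop] at h1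
  obtain ⟨M, hM⟩ := h1 δ hδ
  refine ⟨M, fun m hm => len _ hδ.le fun j => ?_⟩
  rw [ZeroAtInftyContinuousMap.coe_sub, Pi.sub_apply, P_apply]
  split_ifs with h
  · rw [sub_self, norm_zero]; exact hδ.le
  · have h2 := hM j (hm.trans (not_lt.1 h))
    rw [dist_zero_right] at h2
    rw [sub_zero]
    exact h2.le

theorem key (T : StrongDual ℝ C₀(ℕ, Z)) {ε : ℝ} (hε : 0 < ε) : ∃ n, ‖T - Tn T n‖ ≤ ε := by
  by_contra hcon
  push Not at hcon
  have h1 : ∀ n, ∃ x : C₀(ℕ, Z), ‖x‖ ≤ 1 ∧ ε < T x - T (P n x) := by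
    intro n
    by_contra h2
    push Not at h2
    refine absurd ?_ (not_le.2 (hcon n))
    refine ContinuousLinearMap.opNorm_le_of_unit_norm hε.le fun x hx => ?_
    rw [sub_apply, Tn_apply, Real.norm_eq_abs]
    have h3 := h2 x hx.le
    have h4 := h2 (-x) (by rw [norm_neg]; exact hx.le)
    have h5 : P n (-x) = - P n x := by
      ext j
      rw [P_apply, ZeroAtInftyContinuousMap.coe_neg, ZeroAtInftyContinuousMap.coe_neg,
        Pi.neg_apply, Pi.neg_apply, P_apply]
      split_ifs <;> simp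
    rw [h5, map_neg, map_neg] at h4
    exact abs_le.2 ⟨by linarith, by linarith⟩
  have h2 : ∀ n, ∃ m, n ≤ m ∧ ∃ y : C₀(ℕ, Z), ‖y‖ ≤ 1 ∧ (∀ j < n, y j = 0) ∧
      (∀ j, m ≤ j → y j = 0) ∧ ε ≤ T y := by
    intro n
    obtain ⟨x, hx, hT⟩ := h1 n
    have hg : 0 < (T x - T (P n x) - ε) / (‖T‖ + 1) := by
      have : 0 < T x - T (P n x) - ε := by linarith
      positivity
    obtain ⟨M, hM⟩ := trunc x hg
    have hm := hM (max M n) (le_max_left _ _)
    refine ⟨max M n, le_max_right _ _, P (max M n) x - P n x, ?_, ?_, ?_, ?_⟩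
    · refine len _ zero_le_one fun j => ?_
      rw [ZeroAtInftyContinuousMap.coe_sub, Pi.sub_apply, P_apply, P_apply]
      split_ifs
      · rw [sub_self, norm_zero]; exact zero_le_one
      · rw [sub_zero]; exact (nle x j).trans hx
      · rename_i h5 h6
        exact absurd (h6.trans_le (le_max_right _ _)) h5
      · rw [sub_self, norm_zero]; exact zero_le_one
    · intro j hj
      rw [ZeroAtInftyContinuousMap.coe_sub, Pi.sub_apply, P_apply, P_apply,
        if_pos (hj.trans_le (le_max_right _ _)), if_pos hj, sub_self]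
    · intro j hj
      rw [ZeroAtInftyContinuousMap.coe_sub, Pi.sub_apply, P_apply, P_apply,
        if_neg (not_lt.2 hj), if_neg (not_lt.2 ((le_max_right _ _).trans hj)), sub_self]
    · rw [map_sub]
      have h3 : T (x - P (max M n) x) ≤ ‖T‖ * ‖x - P (max M n) x‖ :=
        (le_abs_self _).trans (T.le_opNorm _)
      have h4 : ‖T‖ * ‖x - P (max M n) x‖ ≤
          (‖T‖ + 1) * ((T x - T (P n x) - ε) / (‖T‖ + 1)) :=
        mul_le_mul (by linarith) hm (norm_nonneg _) (by positivity)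
      rw [mul_div_cancel₀ _ (by positivity : (‖T‖ + 1) ≠ 0)] at h4
      rw [map_sub] at h3
      linarith
  have h3 : ∀ (K : ℕ) (n : ℕ), ∃ m, n ≤ m ∧ ∃ y : C₀(ℕ, Z), ‖y‖ ≤ 1 ∧ (∀ j < n, y j = 0) ∧
      (∀ j, m ≤ j → y j = 0) ∧ K * ε ≤ T y := by
    intro K
    induction K with
    | zero =>
      intro n
      refine ⟨n, le_rfl, 0, by rw [norm_zero]; exact zero_le_one, fun _ _ => rfl,
        fun _ _ => rfl, ?_⟩
      rw [Nat.cast_zero, zero_mul, map_zero]
    | succ K ih =>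
      intro n
      obtain ⟨m, hnm, y, hy1, hy2, hy3, hy4⟩ := ih n
      obtain ⟨m', hmm, y', hy1', hy2', hy3', hy4'⟩ := h2 m
      refine ⟨m', hnm.trans hmm, y + y', ?_, ?_, ?_, ?_⟩
      · refine len _ zero_le_one fun j => ?_
        rw [ZeroAtInftyContinuousMap.coe_add, Pi.add_apply]
        rcases lt_or_ge j m with h | h
        · rw [hy2' j h, add_zero]; exact (nle y j).trans hy1
        · rw [hy3 j h, zero_add]; exact (nle y' j).trans hy1'
      · intro j hj
        rw [ZeroAtInftyContinuousMap.coe_add, Pi.add_apply, hy2 j hj,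
          hy2' j (hj.trans_le hnm), add_zero]
      · intro j hj
        rw [ZeroAtInftyContinuousMap.coe_add, Pi.add_apply, hy3 j (hmm.trans hj), hy3' j hj,
          add_zero]
      · rw [map_add]
        push_cast
        linarith
  obtain ⟨K, hK⟩ := exists_nat_gt (‖T‖ / ε)
  obtain ⟨m, -, y, hy1, -, -, hy4⟩ := h3 K 0
  rw [div_lt_iff₀ hε] at hK
  have h4 : T y ≤ ‖T‖ * ‖y‖ := (le_abs_self _).trans (T.le_opNorm _)
  have h5 : ‖T‖ * ‖y‖ ≤ ‖T‖ * 1 := mul_le_mul_of_nonneg_left hy1 (norm_nonneg T)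
  linarith

/-- the span of the first coordinates -/
noncomputable def Sn (n : ℕ) (g : Fin n → StrongDual ℝ Z) : StrongDual ℝ C₀(ℕ, Z) :=
  ∑ i : Fin n, (g i).comp (ev (i : ℕ))

theorem Sn_cont (n : ℕ) : Continuous (Sn (Z := Z) n) := by
  unfold Sn
  exact continuous_finsetSum _ fun i _ => (continuous_apply i).clm_comp continuous_const

theorem stDC0 : Pool.Agent.Helper8.KT.ST_DC0.{u} := by
  intro Z _ _ _
  rw [← TopologicalSpace.isSeparable_univ_iff]
  have h1 : TopologicalSpace.IsSeparable (⋃ n : ℕ, range (Sn (Z := Z) n)) :=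
    TopologicalSpace.IsSeparable.iUnion fun n =>
      TopologicalSpace.isSeparable_range (Sn_cont n)
  refine h1.closure.mono fun T _ => ?_
  refine (Metric.mem_closure_iff (α := StrongDual ℝ C₀(ℕ, Z))).2 fun ε hε => ?_
  obtain ⟨n, hn⟩ := key T (half_pos hε)
  refine ⟨Tn T n, mem_iUnion.2 ⟨n, ⟨fun i => T.comp (em (i : ℕ)), rfl⟩⟩, ?_⟩
  have h2 : ‖T - Tn T n‖ < ε := by linarith
  exact lt_of_le_of_lt (le_of_eq (dist_eq_norm T (Tn T n))) h2

end Pool.Agent.Helper4.KT.DC
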