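import Pool.Agent.Helper8.KT.Sheet

open Set Filter Topology

namespace Pool.Agent.Helper4.KT

open Pool.Agent.Helper8.KT

theorem lip_mono {n : ℕ} {G : (ℕ → ℝ) → ℝ} (h : Lip1 n G) : Lip1 (n + 1) G :=
  fun y y' r hr => h y y' r fun j hj => hr j (Nat.le_succ_of_le hj)

theorem lip_max {n : ℕ} {G H : (ℕ → ℝ) → ℝ} (hG : Lip1 n G) (hH : Lip1 n H) :
    Lip1 n (fun y => max (G y) (H y)) := by
  intro y y' r hr
  have h1 := hG y y' r hr
  have h2 := hH y y' r hr
  exact (abs_max_sub_max_le_max _ _ _ _).trans (max_le h1 h2)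

theorem lip_min {n : ℕ} {G H : (ℕ → ℝ) → ℝ} (hG : Lip1 n G) (hH : Lip1 n H) :
    Lip1 n (fun y => min (G y) (H y)) := by
  intro y y' r hr
  have h1 := hG y y' r hr
  have h2 := hH y y' r hr
  exact (abs_min_sub_min_le_max _ _ _ _).trans (max_le h1 h2)

theorem lip_neg {n : ℕ} {G : (ℕ → ℝ) → ℝ} (hG : Lip1 n G) : Lip1 n (fun y => - G y) := by
  intro y y' r hr
  have h1 := hG y y' r hr
  have h2 : -G y - -G y' = -(G y - G y') := by ring
  rw [h2, abs_neg]
  exact h1

/-- the maximum -/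
noncomputable def VV (f : ℕ → ℝ) (n : ℕ) (y : ℕ → ℝ) : ℝ :=
  (Finset.range (n + 2)).sup' ⟨0, Finset.mem_range.2 (Nat.succ_pos _)⟩ (fun i => f i - y i)

theorem lip_VV (f : ℕ → ℝ) (n : ℕ) : Lip1 (n + 1) (VV f n) := by
  have h1 : ∀ (y y' : ℕ → ℝ) (r : ℝ), (∀ j ≤ n + 1, |y j - y' j| ≤ r) →
      VV f n y ≤ VV f n y' + r := by
    intro y y' r hr
    refine Finset.sup'_le _ _ fun i hi => ?_
    have hi' : i ≤ n + 1 := Nat.lt_succ_iff.1 (Finset.mem_range.1 hi)
    have h2 := abs_le.1 (hr i hi')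
    have h3 : f i - y' i ≤ VV f n y' := Finset.le_sup' (fun i => f i - y' i) hi
    linarith [h2.1]
  intro y y' r hr
  have h2 := h1 y y' r hr
  have h3 := h1 y' y r fun j hj => by rw [abs_sub_comm]; exact hr j hj
  exact abs_le.2 ⟨by linarith, by linarith⟩

theorem stST : ST_MC → ST_ST := by
  intro hMC d hd f hf D hD n G hG hI
  obtain ⟨M, hM1, hM2, hM3⟩ := hMC d hd f D hD n G hG fun y hy hj j => (hI y hy hj j).1
  obtain ⟨m, hm1, hm2, hm3⟩ := hMC d hd (fun j => - f j) D hD n (fun y => - G y) (lip_neg hG)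
    fun y hy hj j => by have := (hI y hy hj j).2; linarith
  refine ⟨fun y => max (- m y) (min (M y) (VV f n y)),
    lip_max (lip_mono (lip_neg hm1)) (lip_min (lip_mono hM1) (lip_VV f n)), ?_, ?_⟩
  · rintro y hy ⟨i, hi, hiD⟩ j
    have hfij := fun a b => abs_le.1 (hf a b)
    refine ⟨?_, ?_⟩
    · refine le_trans (le_min (hM3 y hy j) ?_) (le_max_right _ _)
      have h1 : f i - y i ≤ VV f n y :=
        Finset.le_sup' (fun i => f i - y i) (Finset.mem_range.2 (Nat.lt_succ_iff.2 hi))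
      have h2 := (hfij j i).2
      have h3 := (hy j i).2
      linarith
    · refine max_le ?_ ((min_le_right _ _).trans (Finset.sup'_le _ _ fun a _ => ?_))
      · have := hm3 y hy j
        linarith
      · have h2 := (hfij a j).2
        have h3 := (hy a j).2
        linarith
  · intro y hy hj
    change max (- m y) (min (M y) (VV f n y)) = G y
    rw [hM2 y hy hj, hm2 y hy hj, neg_neg]
    exact max_eq_left (min_le_left _ _)

end Pool.Agent.Helper4.KT
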